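import Pool.Agent.W617.LG.StmI
/-! Laugwitz' problem (MP_7dd29b_gt), Part I: algebra of the tensor `CC` in flat coordinates. -/
set_option autoImplicit false
open Topology Filter Set
open scoped ContDiff InnerProductSpace

namespace Pool.Agent.W431.LG
open Pool.Agent.W617.LG

theorem CC_apply {q : ℕ} (M : TF q) (N : ℝ → E q → (E q →L[ℝ] E q)) (A : E q →L[ℝ] E q)
    (Y : E q → E q) (x a b : E q) :
    CC M N A Y x a b = -((A * N 1 (Y x)) (M (Y x) (Ring.inverse (A * N 1 (Y x)) a)
      (Ring.inverse (A * N 1 (Y x)) b))) := by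
  simp [CC]

theorem dG_symm {q : ℕ} {G : E q → E q →L[ℝ] E q} {M : TF q} (h : HD q G M) (y : E q) (hy : y ≠ 0)
    (v a b : E q) : ⟪G y (M y v a), b⟫_ℝ = ⟪G y (M y v b), a⟫_ℝ := by
  have hG : HasFDerivAt G (fderiv ℝ G y) y :=
    ((h.Gsm y hy).differentiableAt (by simp)).hasFDerivAt
  have h1 : ∀ a b : E q, HasFDerivAt (fun z => ⟪G z a, b⟫_ℝ)
      ((innerSL ℝ b).comp ((ContinuousLinearMap.apply ℝ (E q) a).comp (fderiv ℝ G y))) y := by
    intro a b
    have h2 : HasFDerivAt (fun z => G z a)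
        ((ContinuousLinearMap.apply ℝ (E q) a).comp (fderiv ℝ G y)) y :=
      (ContinuousLinearMap.apply ℝ (E q) a).hasFDerivAt.comp y hG
    have h3 : HasFDerivAt (fun z => innerSL ℝ b (G z a))
        ((innerSL ℝ b).comp ((ContinuousLinearMap.apply ℝ (E q) a).comp (fderiv ℝ G y))) y :=
      (innerSL ℝ b).hasFDerivAt.comp y h2
    refine h3.congr_of_eventuallyEq (Filter.Eventually.of_forall fun z => ?_)
    simp [innerSL_apply_apply, real_inner_comm]
  have h4 : (fun z => ⟪G z a, b⟫_ℝ) =ᶠ[𝓝 y] fun z => ⟪G z b, a⟫_ℝ := by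
    filter_upwards [isOpen_ne.mem_nhds hy] with z hz
    exact h.Gsymm z hz a b
  have h5 := ((h1 a b).congr_of_eventuallyEq h4.symm).unique (h1 b a)
  have h6 := congrArg (fun L => L v) h5
  simp only [ContinuousLinearMap.comp_apply, h.dG y hy v] at h6
  simp only [innerSL_apply_apply, ContinuousLinearMap.apply_apply, _root_.smul_apply,
    ContinuousLinearMap.comp_apply, inner_smul_right] at h6
  have h7 := real_inner_comm (G y (M y v a)) b
  have h8 := real_inner_comm (G y (M y v b)) a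
  linarith

theorem main : S_CC2 := by
  intro q G M N A Y h x hx
  have hy := h.Y0 x hx
  set y := Y x with hyd
  set P := A * N 1 y with hP
  have hPu : IsUnit P := h.unitA.mul (h.nf.unit 1 y hy)
  set Q := Ring.inverse P with hQ
  have hPQ : ∀ v, P (Q v) = v := by
    intro v
    have := Ring.mul_inverse_cancel P hPu
    exact congrArg (fun L => L v) this
  have hQP : ∀ v, Q (P v) = v := by
    intro v
    have := Ring.inverse_mul_cancel P hPu
    exact congrArg (fun L => L v) this
  have hC : ∀ a b, CC M N A Y x a b = -(P (M y (Q a) (Q b))) := fun a b => CC_apply M N A Y x a b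
  have hxy : x = P y := (h.Yinv x hx).symm
  have hQx : Q x = y := by rw [hxy, hQP]
  refine ⟨?_, ?_, ?_, ?_, ?_, ?_⟩
  · intro a b
    rw [hC, hC, h.hd.M12 y hy]
  · intro a b c
    have key : ∀ b c, ⟪CC M N A Y x a b, c⟫_ℝ = -⟪G y (M y (Q a) (Q b)), Q c⟫_ℝ := by
      intro b c
      rw [hC, inner_neg_left]
      have := h.iso y hy (M y (Q a) (Q b)) (Q c)
      rw [← this]
      have e1 : A (N 1 y (Q c)) = c := hPQ c
      rw [e1]; rfl
    rw [key, key, dG_symm h.hd y hy]
  · ext1 b
    rw [hC, hQx, h.hd.Mrad y hy]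
    simp
  · intro r hr
    have hYr : Y (r • x) = r • y := h.Yhom x hx r hr
    ext1 a
    ext1 b
    rw [CC_apply, hYr, h.nf.hom 1 y hy r hr, h.hd.Mhom y hy r hr]
    have e1 : (r⁻¹ • CC M N A Y x) a b = r⁻¹ • (CC M N A Y x a b) := rfl
    have e2 : ∀ c d, (r⁻¹ • M y) c d = r⁻¹ • (M y c d) := fun _ _ => rfl
    rw [e1, hC, e2, map_smul, smul_neg]
  · intro a b c
    rw [hC, hC, hC, hC]
    simp only [map_neg, hQP]
    rw [h.hd.Mcomm y hy]
  · intro h0
    ext1 v
    ext1 w
    have h1 := hC (P v) (P w)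
    rw [h0, hQP, hQP] at h1
    have h2 : P (M y v w) = 0 := by
      have : (0 : TF q) x (P v) (P w) = 0 := rfl
      simpa using h1.symm
    have h3 := hQP (M y v w)
    rw [h2, map_zero] at h3
    exact h3.symm

end Pool.Agent.W431.LG
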